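import Pool.Agent.Results.MP_f2148a_nt.AlmostAllK
import Pool.Agent.Results.MP_f2148a_nt.SparseViolations
import Pool.Agent.Y854.GM.Win

/-!
# Hall's conjecture without exceptions in windows around thin sequences of parameters

Let `v ≥ 1` be a sequence with exponent of convergence at most `τ` (for `v_n = (n + 1) ^ a` this is `1 / a`, for
`v_n = b ^ n` it is `0`) and `θ < 1`.

1. For all `α > 0` outside a set of Hausdorff dimension at most `(99 / 100 + τ) / (1 - θ)` and all but finitely many `n`: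
   for NO integer `k ≠ 0` with `||k| - α v_n| ≤ v_n ^ θ` does the equation `y ^ 2 = x ^ 3 + k` have an integral solution
   with `|x| ≤ exp (|k| ^ (1 / 10000))`.
2. Let `A ≥ 2`. For all `α > 0` outside a set of Hausdorff dimension at most `(A / 4 + 1 / 6 + τ) / (1 - θ)`, all `C > 0`
   and all but finitely many `n`: Hall's inequality `max (|x|, |y|) ≤ C |k| ^ 3` holds for ALL integral points with
   `|x| ≤ |k| ^ A` of ALL the equations `y ^ 2 = x ^ 3 + k` with `||k| - α v_n| ≤ v_n ^ θ`.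

So for each `b > 1`, `A < 10 / 3` and `θ < 5 / 6 - A / 4`, for almost all `α` there are no exceptions with
`|x| ≤ |k| ^ A` in the windows of length `b ^ (θ n)` around `α b ^ n`.
-/

set_option autoImplicit false

namespace Pool.Agent.Results.MP_f2148a_nt.WindowsOfParameters

/-- the exponent of convergence of the sequence `v` is at most `τ` -/
def ExpLe (v : ℕ → ℝ) (τ : ℝ) : Prop := ∀ t : ℝ, τ < t → Summable (fun n : ℕ => (v n) ^ (-t))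

lemma fin_abs (X : ℝ) : {k : ℤ | |(k : ℝ)| ≤ X}.Finite := by
  refine (Set.finite_Icc (-⌈X⌉) ⌈X⌉).subset ?_
  intro k hk
  have h1 := abs_le.1 (show |(k : ℝ)| ≤ X from hk)
  have h2 : X ≤ (⌈X⌉ : ℝ) := Int.le_ceil X
  constructor
  · exact_mod_cast (by linarith : (-(⌈X⌉ : ℝ)) ≤ k)
  · exact_mod_cast (by linarith : (k : ℝ) ≤ ⌈X⌉)

/-- **Theorem.** Let `v ≥ 1` be a sequence of exponent of convergence at most `τ ≥ 0` and `θ < 1`.
(1) For all `α > 0` outside a set of Hausdorff dimension at most `(99 / 100 + τ) / (1 - θ)` and all but finitely many `n`,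
no equation `y ^ 2 = x ^ 3 + k` with `k ≠ 0` and `||k| - α v_n| ≤ v_n ^ θ` has an integral solution with
`|x| ≤ exp (|k| ^ (1 / 10000))`.
(2) For `A ≥ 2`, all `α > 0` outside a set of dimension at most `(A / 4 + 1 / 6 + τ) / (1 - θ)`, all `C > 0` and all but
finitely many `n`, Hall's inequality with constant `C` holds for all integral points with `|x| ≤ |k| ^ A` of all the
equations with `k ≠ 0` and `||k| - α v_n| ≤ v_n ^ θ`.
The sequences `v_n = (n + 1) ^ a` and `v_n = b ^ n` have exponent of convergence at most `1 / a` and `0`. -/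
theorem result :
    (∀ (v : ℕ → ℝ) (τ θ : ℝ), (∀ n, 1 ≤ v n) → 0 ≤ τ → ExpLe v τ → θ < 1 →
      (∃ E : Set ℝ, dimH E ≤ ENNReal.ofReal ((99 / 100 + τ) / (1 - θ)) ∧
        ∀ α : ℝ, 0 < α → α ∉ E → ∃ n₀ : ℕ, ∀ n : ℕ, n₀ ≤ n → ∀ k x y : ℤ, k ≠ 0 →
          |(|(k : ℝ)| - α * v n)| ≤ (v n) ^ θ → y ^ 2 = x ^ 3 + k →
            Real.exp (|(k : ℝ)| ^ ((1 : ℝ) / 10000)) < |(x : ℝ)|) ∧
      ∀ A : ℝ, 2 ≤ A → ∃ E : Set ℝ, dimH E ≤ ENNReal.ofReal ((A / 4 + 1 / 6 + τ) / (1 - θ)) ∧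
        ∀ α : ℝ, 0 < α → α ∉ E → ∀ C : ℝ, 0 < C → ∃ n₀ : ℕ, ∀ n : ℕ, n₀ ≤ n → ∀ k x y : ℤ, k ≠ 0 →
          |(|(k : ℝ)| - α * v n)| ≤ (v n) ^ θ → y ^ 2 = x ^ 3 + k → |(x : ℝ)| ≤ |(k : ℝ)| ^ A →
            max |(x : ℝ)| |(y : ℝ)| ≤ C * |(k : ℝ)| ^ 3) ∧
    (∀ a : ℝ, 0 < a → ExpLe (fun n : ℕ => ((n : ℝ) + 1) ^ a) (1 / a)) ∧
    (∀ b : ℝ, 1 < b → ExpLe (fun n : ℕ => b ^ n) 0) := by
  refine ⟨fun v τ θ hv hτ hE hθ => ⟨?_, fun A hA => ?_⟩, fun κ hκ => Pool.Agent.Y854.GM.expLe_pow κ hκ,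
    fun b hb => Pool.Agent.Y854.GM.expLe_geom b hb⟩
  · set S : Set ℤ := {k | k ≠ 0 ∧ ∃ x y : ℤ, y ^ 2 = x ^ 3 + k ∧
      |(x : ℝ)| ≤ Real.exp (|(k : ℝ)| ^ ((1 : ℝ) / 10000))} with hS
    obtain ⟨M, hM⟩ := AlmostAllK.result
    obtain ⟨E, h2, h3⟩ := Pool.Agent.Y854.GM.windows S (fun k : ℤ => |(k : ℝ)|) hv hτ hE (s := 99 / 100)
      (by norm_num) hθ (by
        intro ε hε
        refine ⟨|M|, fun X hX => ⟨(fin_abs X).subset fun k hk => hk.2, ?_⟩⟩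
        have hsub : {k : ℤ | k ∈ S ∧ |(k : ℝ)| ≤ X} ⊆ {k : ℤ | k ≠ 0 ∧ |(k : ℝ)| ≤ X ∧ ∃ x y : ℤ,
            y ^ 2 = x ^ 3 + k ∧ |(x : ℝ)| ≤ Real.exp (X ^ ((1 : ℝ) / 10000))} := by
          rintro k ⟨⟨hk0, x, y, hxy, hx⟩, hkX⟩
          refine ⟨hk0, hkX, x, y, hxy, hx.trans (Real.exp_le_exp.2 ?_)⟩
          exact Real.rpow_le_rpow (abs_nonneg _) hkX (by norm_num)
        have h1 := (Nat.cast_le (α := ℝ)).2 (Set.ncard_le_ncard hsub ((fin_abs X).subset fun k hk => hk.2.1))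
        refine h1.trans ((hM X hX).trans ?_)
        have hX0 : (0 : ℝ) < X := by linarith
        calc M * X ^ ((99 : ℝ) / 100) ≤ |M| * X ^ ((99 : ℝ) / 100) :=
              mul_le_mul_of_nonneg_right (le_abs_self M) (by positivity)
          _ ≤ |M| * X ^ ((99 : ℝ) / 100 + ε) :=
              mul_le_mul_of_nonneg_left (Real.rpow_le_rpow_of_exponent_le hX (by linarith)) (abs_nonneg M))
    refine ⟨E, h2, fun α hα hαE => ?_⟩
    obtain ⟨n₀, hn⟩ := h3 α hα hαE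
    refine ⟨n₀, fun n hn1 k x y hk hw hxy => ?_⟩
    by_contra hcon
    exact absurd (hn n hn1 k ⟨hk, x, y, hxy, not_lt.1 hcon⟩) (not_lt.2 hw)
  · have key : ∀ m : ℕ, ∃ E : Set ℝ, dimH E ≤ ENNReal.ofReal ((A / 4 + 1 / 6 + τ) / (1 - θ)) ∧
        ∀ α : ℝ, 0 < α → α ∉ E → ∃ n₀ : ℕ, ∀ n : ℕ, n₀ ≤ n → ∀ k x y : ℤ, k ≠ 0 →
          |(|(k : ℝ)| - α * v n)| ≤ (v n) ^ θ → y ^ 2 = x ^ 3 + k → |(x : ℝ)| ≤ |(k : ℝ)| ^ A →
            max |(x : ℝ)| |(y : ℝ)| ≤ (1 / ((m : ℝ) + 1)) * |(k : ℝ)| ^ 3 := by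
      intro m
      have hC : (0 : ℝ) < 1 / ((m : ℝ) + 1) := by positivity
      set C : ℝ := 1 / ((m : ℝ) + 1) with hCdef
      set S : Set ℤ := {k | k ≠ 0 ∧ ∃ x y : ℤ, y ^ 2 = x ^ 3 + k ∧
        C * |(k : ℝ)| ^ 3 < max |(x : ℝ)| |(y : ℝ)| ∧ |(x : ℝ)| ≤ |(k : ℝ)| ^ A} with hS
      obtain ⟨E, h2, h3⟩ := Pool.Agent.Y854.GM.windows S (fun k : ℤ => |(k : ℝ)|) hv hτ hE (s := A / 4 + 1 / 6)
        (by linarith) hθ (by
          intro ε hε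
          obtain ⟨M, hM⟩ := SparseViolations.result C A ε hC hA hε
          refine ⟨M, fun X hX => ⟨(fin_abs X).subset fun k hk => hk.2, ?_⟩⟩
          have hsub : {k : ℤ | k ∈ S ∧ |(k : ℝ)| ≤ X} ⊆ {k : ℤ | k ≠ 0 ∧ |(k : ℝ)| ≤ X ∧ ∃ x y : ℤ,
              y ^ 2 = x ^ 3 + k ∧ C * |(k : ℝ)| ^ 3 < max |(x : ℝ)| |(y : ℝ)| ∧ |(x : ℝ)| ≤ X ^ A} := by
            rintro k ⟨⟨hk0, x, y, hxy, hv, hx⟩, hkX⟩
            exact ⟨hk0, hkX, x, y, hxy, hv, hx.trans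
              (Real.rpow_le_rpow (abs_nonneg _) hkX (by linarith))⟩
          have h1 := (Nat.cast_le (α := ℝ)).2 (Set.ncard_le_ncard hsub ((fin_abs X).subset fun k hk => hk.2.1))
          exact h1.trans (hM X hX))
      refine ⟨E, h2, fun α hα hαE => ?_⟩
      obtain ⟨n₀, hn⟩ := h3 α hα hαE
      refine ⟨n₀, fun n hn1 k x y hk hw hxy hx => ?_⟩
      by_contra hcon
      exact absurd (hn n hn1 k ⟨hk, x, y, hxy, not_le.1 hcon, hx⟩) (not_lt.2 hw)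
    choose F hF1 hF2 using key
    refine ⟨⋃ m, F m, ?_, fun α hα hαE C hC => ?_⟩
    · rw [dimH_iUnion]
      exact iSup_le hF1
    · obtain ⟨m, hm⟩ := exists_nat_one_div_lt hC
      have hαm : α ∉ F m := fun h => hαE (Set.mem_iUnion.2 ⟨m, h⟩)
      obtain ⟨n₀, hn⟩ := hF2 m α hα hαm
      refine ⟨n₀, fun n hn1 k x y hk hw hxy hx => (hn n hn1 k x y hk hw hxy hx).trans ?_⟩
      exact mul_le_mul_of_nonneg_right hm.le (by positivity)

end Pool.Agent.Results.MP_f2148a_nt.WindowsOfParameters
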